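import Pool.Agent.Y600.FB.Stm

/-!
# The constraint satisfaction problem of a disjoint union of chains (project FB, helper600)
-/

set_option autoImplicit false

namespace Pool.Agent.Y338.FB

open Pool.Agent.NPC Pool.Agent.H593R3.FBC Pool.Agent.Y600.FB

theorem mem_ite_nil {α : Type} {p : Prop} [Decidable p] {x y : α} :
    x ∈ (if p then [y] else []) ↔ p ∧ x = y := by
  split_ifs with h
  · simp [h]
  · simp [h]

theorem mem_cf {T : ℕ} {s : List Bool} {a : ℕ} {c : Loc} {i : ℕ} {y : List ℕ} :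
    (i, y) ∈ cf T s a c ↔
      (i = 0 ∧ y = [a * (T + 1)]) ∨
      (∃ j < T, i = 2 ∧ y = [a * (T + 1) + j, a * (T + 1) + j + 1]) ∨
      (∃ n ∈ c.1, (n ≤ T ∧ s.getD n false = true) ∧ i = 1 ∧ y = [a * (T + 1) + n]) ∨
      (∃ p ∈ c.2.2.1, (p.1 ≤ T ∧ p.2.1 ≤ T ∧ p.2.2 ≤ T) ∧ i = 3 ∧
        y = [a * (T + 1) + p.1, a * (T + 1) + p.2.1, a * (T + 1) + p.2.2]) ∨
      (∃ p ∈ c.2.2.2, (p.1 ≤ T ∧ p.2 ≤ T) ∧ i = 4 ∧
        y = [a * (T + 1) + p.1, a * (T + 1) + p.2]) ∨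
      (∃ j ∈ c.2.1, j ≤ T ∧ i = 6 ∧ y = [a * (T + 1), a * (T + 1) + j]) := by
  unfold cf
  rw [List.mem_append, List.mem_append, List.mem_append, List.mem_append, List.mem_append]
  refine or_congr ?_ (or_congr ?_ (or_congr ?_ (or_congr ?_ (or_congr ?_ ?_))))
  · rw [List.mem_singleton, Prod.mk.injEq]
  · rw [List.mem_map]
    constructor
    · rintro ⟨j, hj, h⟩
      rw [Prod.mk.injEq] at h
      exact ⟨j, List.mem_range.1 hj, h.1.symm, h.2.symm⟩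
    · rintro ⟨j, hj, rfl, rfl⟩
      exact ⟨j, List.mem_range.2 hj, rfl⟩
  · rw [List.mem_flatMap]
    refine exists_congr fun n => and_congr_right fun _ => ?_
    rw [mem_ite_nil, Prod.mk.injEq]
  · rw [List.mem_flatMap]
    refine exists_congr fun n => and_congr_right fun _ => ?_
    rw [mem_ite_nil, Prod.mk.injEq]
  · rw [List.mem_flatMap]
    refine exists_congr fun n => and_congr_right fun _ => ?_
    rw [mem_ite_nil, Prod.mk.injEq]
  · rw [List.mem_flatMap]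
    refine exists_congr fun n => and_congr_right fun _ => ?_
    rw [mem_ite_nil, Prod.mk.injEq]

theorem mem_uI {T : ℕ} {s : List Bool} {l : List Loc} {x : ℕ × List ℕ} :
    x ∈ (uI T s l).2 ↔ ∃ a c, l[a]? = some c ∧ x ∈ cf T s a c := by
  unfold uI
  simp only [List.mem_flatMap]
  constructor
  · rintro ⟨⟨c, a⟩, h1, h2⟩
    exact ⟨a, c, List.mem_zipIdx_iff_getElem?.1 h1, h2⟩
  · rintro ⟨a, c, h1, h2⟩
    exact ⟨(c, a), List.mem_zipIdx_iff_getElem?.2 h1, h2⟩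

theorem blk_inj {T a a' i i' : ℕ} (hi : i ≤ T) (hi' : i' ≤ T)
    (h : a * (T + 1) + i = a' * (T + 1) + i') : a = a' ∧ i = i' := by
  rcases Nat.lt_trichotomy a a' with h1 | h1 | h1
  · have h2 : (a + 1) * (T + 1) ≤ a' * (T + 1) := Nat.mul_le_mul_right _ h1
    rw [Nat.succ_mul] at h2
    omega
  · subst h1
    exact ⟨rfl, by omega⟩
  · have h2 : (a' + 1) * (T + 1) ≤ a * (T + 1) := Nat.mul_le_mul_right _ h1
    rw [Nat.succ_mul] at h2
    omega

theorem blk_lt {T a i : ℕ} {l : List Loc} {c : Loc} (ha : l[a]? = some c) (hi : i ≤ T) :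
    a * (T + 1) + i < (T + 1) * l.length := by
  obtain ⟨h1, _⟩ := List.getElem?_eq_some_iff.1 ha
  have h2 : (a + 1) * (T + 1) ≤ l.length * (T + 1) := Nat.mul_le_mul_right _ h1
  rw [Nat.succ_mul] at h2
  rw [Nat.mul_comm (T + 1)]
  omega

theorem isInst_uI (m : Mach) (T : ℕ) (s : List Bool) (l : List Loc) :
    IsInst (tau m) (uI T s l) := by
  rintro ⟨i, y⟩ h
  have hl : (uI T s l).1.length = (T + 1) * l.length := by simp [uI]
  rw [hl]
  obtain ⟨a, c, ha, h⟩ := mem_uI.1 h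
  rcases mem_cf.1 h with ⟨rfl, rfl⟩ | ⟨j, hj, rfl, rfl⟩ | ⟨n, _, ⟨hn, _⟩, rfl, rfl⟩ |
    ⟨p, _, ⟨h1, h2, h3⟩, rfl, rfl⟩ | ⟨p, _, ⟨h1, h2⟩, rfl, rfl⟩ | ⟨j, _, hj, rfl, rfl⟩
  · refine ⟨rfl, ?_⟩
    have e := blk_lt ha (Nat.zero_le T)
    simp only [List.mem_cons, List.not_mem_nil, or_false, forall_eq]
    omega
  · refine ⟨rfl, ?_⟩
    have e1 := blk_lt (i := j) ha hj.le
    have e2 := blk_lt (i := j + 1) ha hj
    simp only [List.mem_cons, List.not_mem_nil, or_false, forall_eq_or_imp, forall_eq]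
    omega
  · refine ⟨rfl, ?_⟩
    have e1 := blk_lt ha hn
    simp only [List.mem_cons, List.not_mem_nil, or_false, forall_eq]
    omega
  · refine ⟨rfl, ?_⟩
    have e1 := blk_lt ha h1
    have e2 := blk_lt ha h2
    have e3 := blk_lt ha h3
    simp only [List.mem_cons, List.not_mem_nil, or_false, forall_eq_or_imp, forall_eq]
    exact ⟨e1, e2, e3⟩
  · refine ⟨rfl, ?_⟩
    have e1 := blk_lt ha h1
    have e2 := blk_lt ha h2
    simp only [List.mem_cons, List.not_mem_nil, or_false, forall_eq_or_imp, forall_eq]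
    exact ⟨e1, e2⟩
  · refine ⟨rfl, ?_⟩
    have e1 := blk_lt ha (Nat.zero_le T)
    have e2 := blk_lt ha hj
    simp only [List.mem_cons, List.not_mem_nil, or_false, forall_eq_or_imp, forall_eq]
    exact ⟨by omega, e2⟩

theorem uI_F {m : Mach} {T : ℕ} {s : List Bool} {l : List Loc} {f : ℕ} :
    (toMdl m (insR (uI T s l))).F f ↔ ∃ a c, l[a]? = some c ∧ f = a * (T + 1) := by
  change (0, [f]) ∈ (uI T s l).2 ↔ _
  rw [mem_uI]
  refine exists_congr fun a => exists_congr fun c => and_congr_right fun _ => ?_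
  rw [mem_cf]
  constructor
  · rintro (⟨_, h⟩ | ⟨_, _, h, _⟩ | ⟨_, _, _, h, _⟩ | ⟨_, _, _, h, _⟩ | ⟨_, _, _, h, _⟩ |
      ⟨_, _, _, h, _⟩)
    · simpa using h
    all_goals omega
  · rintro rfl
    exact Or.inl ⟨rfl, rfl⟩

theorem uI_S {m : Mach} {T : ℕ} {s : List Bool} {l : List Loc} {x y : ℕ} :
    (toMdl m (insR (uI T s l))).S x y ↔
      ∃ a c, l[a]? = some c ∧ ∃ j < T, x = a * (T + 1) + j ∧ y = a * (T + 1) + j + 1 := by
  change (2, [x, y]) ∈ (uI T s l).2 ↔ _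
  rw [mem_uI]
  refine exists_congr fun a => exists_congr fun c => and_congr_right fun _ => ?_
  rw [mem_cf]
  constructor
  · rintro (⟨h, _⟩ | ⟨j, hj, _, h⟩ | ⟨_, _, _, h, _⟩ | ⟨_, _, _, h, _⟩ | ⟨_, _, _, h, _⟩ |
      ⟨_, _, _, h, _⟩)
    · omega
    · simp only [List.cons.injEq, and_true] at h
      exact ⟨j, hj, h⟩
    all_goals omega
  · rintro ⟨j, hj, rfl, rfl⟩
    exact Or.inr (Or.inl ⟨j, hj, rfl, rfl⟩)

theorem uI_L {m : Mach} {T : ℕ} {s : List Bool} {l : List Loc} {x : ℕ} :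
    (toMdl m (insR (uI T s l))).L x ↔
      ∃ a c, l[a]? = some c ∧ ∃ n ∈ c.1, (n ≤ T ∧ s.getD n false = true) ∧
        x = a * (T + 1) + n := by
  change (1, [x]) ∈ (uI T s l).2 ↔ _
  rw [mem_uI]
  refine exists_congr fun a => exists_congr fun c => and_congr_right fun _ => ?_
  rw [mem_cf]
  constructor
  · rintro (⟨h, _⟩ | ⟨_, _, h, _⟩ | ⟨n, hn, h1, _, h⟩ | ⟨_, _, _, h, _⟩ | ⟨_, _, _, h, _⟩ |
      ⟨_, _, _, h, _⟩)
    · omega
    · omega
    · simp only [List.cons.injEq, and_true] at h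
      exact ⟨n, hn, h1, h⟩
    all_goals omega
  · rintro ⟨n, hn, h1, rfl⟩
    exact Or.inr (Or.inr (Or.inl ⟨n, hn, h1, rfl, rfl⟩))

theorem uI_P {m : Mach} {T : ℕ} {s : List Bool} {l : List Loc} {x y z : ℕ} :
    (toMdl m (insR (uI T s l))).P x y z ↔
      ∃ a c, l[a]? = some c ∧ ∃ p ∈ c.2.2.1, (p.1 ≤ T ∧ p.2.1 ≤ T ∧ p.2.2 ≤ T) ∧
        x = a * (T + 1) + p.1 ∧ y = a * (T + 1) + p.2.1 ∧ z = a * (T + 1) + p.2.2 := by
  change (3, [x, y, z]) ∈ (uI T s l).2 ↔ _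
  rw [mem_uI]
  refine exists_congr fun a => exists_congr fun c => and_congr_right fun _ => ?_
  rw [mem_cf]
  constructor
  · rintro (⟨h, _⟩ | ⟨_, _, h, _⟩ | ⟨_, _, _, h, _⟩ | ⟨p, hp, h1, _, h⟩ | ⟨_, _, _, h, _⟩ |
      ⟨_, _, _, h, _⟩)
    · omega
    · omega
    · omega
    · simp only [List.cons.injEq, and_true] at h
      exact ⟨p, hp, h1, h⟩
    all_goals omega
  · rintro ⟨p, hp, h1, rfl, rfl, rfl⟩
    exact Or.inr (Or.inr (Or.inr (Or.inl ⟨p, hp, h1, rfl, rfl⟩)))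

theorem uI_N {m : Mach} {T : ℕ} {s : List Bool} {l : List Loc} {x y : ℕ} :
    (toMdl m (insR (uI T s l))).N x y ↔
      ∃ a c, l[a]? = some c ∧ ∃ p ∈ c.2.2.2, (p.1 ≤ T ∧ p.2 ≤ T) ∧
        x = a * (T + 1) + p.1 ∧ y = a * (T + 1) + p.2 := by
  change (4, [x, y]) ∈ (uI T s l).2 ↔ _
  rw [mem_uI]
  refine exists_congr fun a => exists_congr fun c => and_congr_right fun _ => ?_
  rw [mem_cf]
  constructor
  · rintro (⟨h, _⟩ | ⟨_, _, h, _⟩ | ⟨_, _, _, h, _⟩ | ⟨_, _, _, h, _⟩ | ⟨p, hp, h1, _, h⟩ |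
      ⟨_, _, _, h, _⟩)
    · omega
    · omega
    · omega
    · omega
    · simp only [List.cons.injEq, and_true] at h
      exact ⟨p, hp, h1, h⟩
    all_goals omega
  · rintro ⟨p, hp, h1, rfl, rfl⟩
    exact Or.inr (Or.inr (Or.inr (Or.inr (Or.inl ⟨p, hp, h1, rfl, rfl⟩))))

theorem uI_X {m : Mach} {T : ℕ} {s : List Bool} {l : List Loc} {x y : ℕ} :
    (toMdl m (insR (uI T s l))).X x y ↔
      ∃ a c, l[a]? = some c ∧ ∃ j ∈ c.2.1, j ≤ T ∧
        x = a * (T + 1) ∧ y = a * (T + 1) + j := by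
  change (6, [x, y]) ∈ (uI T s l).2 ↔ _
  rw [mem_uI]
  refine exists_congr fun a => exists_congr fun c => and_congr_right fun _ => ?_
  rw [mem_cf]
  constructor
  · rintro (⟨h, _⟩ | ⟨_, _, h, _⟩ | ⟨_, _, _, h, _⟩ | ⟨_, _, _, h, _⟩ | ⟨_, _, _, h, _⟩ |
      ⟨j, hj, h1, _, h⟩)
    · omega
    · omega
    · omega
    · omega
    · omega
    · simp only [List.cons.injEq, and_true] at h
      exact ⟨j, hj, h1, h⟩
  · rintro ⟨j, hj, h1, rfl, rfl⟩
    exact Or.inr (Or.inr (Or.inr (Or.inr (Or.inr ⟨j, hj, h1, rfl, rfl⟩))))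

theorem uI_no {T : ℕ} {s : List Bool} {l : List Loc} {i : ℕ} (hi : i = 5 ∨ 7 ≤ i)
    (y : List ℕ) : (i, y) ∉ (uI T s l).2 := by
  intro h
  obtain ⟨a, c, _, h⟩ := mem_uI.1 h
  rcases mem_cf.1 h with ⟨h, _⟩ | ⟨_, _, h, _⟩ | ⟨_, _, _, h, _⟩ | ⟨_, _, _, h, _⟩ |
    ⟨_, _, _, h, _⟩ | ⟨_, _, _, h, _⟩ <;> omega

theorem uI_D {m : Mach} {T : ℕ} {s : List Bool} {l : List Loc} {a : ℕ} {c : Loc}
    (ha : l[a]? = some c) (i x : ℕ) :
    Dp (toMdl m (insR (uI T s l))).S (a * (T + 1)) i x ↔ x = a * (T + 1) + i ∧ i ≤ T := by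
  induction i generalizing x with
  | zero => simp [Dp]
  | succ i ih =>
    constructor
    · rintro ⟨b, h1, h2⟩
      rw [ih] at h1
      rw [uI_S] at h2
      obtain ⟨h3, h4⟩ := h1
      obtain ⟨a', c', _, j, hj, h5, h6⟩ := h2
      obtain ⟨h7, h8⟩ := blk_inj h4 hj.le (h3.symm.trans h5)
      subst h7
      subst h8
      exact ⟨by omega, hj⟩
    · rintro ⟨rfl, h⟩
      refine ⟨a * (T + 1) + i, (ih _).2 ⟨rfl, by omega⟩, uI_S.2 ⟨a, c, ha, i, h, rfl, ?_⟩⟩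
      omega

theorem uI_good {m : Mach} {T : ℕ} {s : List Bool} {l : List Loc} {a : ℕ} {c : Loc}
    (ha : l[a]? = some c) :
    GoodAt m (toMdl m (insR (uI T s l))) (a * (T + 1)) ↔
      ∃ ξ : ℕ → Bool, (∀ i ∈ c.2.1, i ≤ T → ξ i = true) ∧
        ∀ n ∈ c.1, n ≤ T → s.getD n false = true → m.flag n = true → ClOK ξ c n := by
  have hD := fun i x => uI_D (m := m) (T := T) (s := s) ha i x
  constructor
  · intro hg
    obtain ⟨ξ, h1, h2⟩ := hg.x
    refine ⟨ξ, fun i hi hiT => ?_, fun n hn hnT hs hfl => ?_⟩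
    · exact h1 i _ ((hD _ _).2 ⟨rfl, hiT⟩) (uI_X.2 ⟨a, c, ha, i, hi, hiT, rfl, rfl⟩)
    · obtain ⟨h3, h4⟩ := h2 n _ ((hD _ _).2 ⟨rfl, hnT⟩)
        (uI_L.2 ⟨a, c, ha, n, hn, ⟨hnT, hs⟩, rfl⟩) hfl
      refine ⟨fun p hp p1 p2 p3 => ?_, fun p hp p1 p2 => ?_⟩
      · have q1 : p.1 ≤ T := by omega
        have q2 : p.2.1 ≤ T := by omega
        have q3 : p.2.2 ≤ T := by omega
        exact h3 _ _ _ _ _ _ ((hD _ _).2 ⟨rfl, q1⟩) ((hD _ _).2 ⟨rfl, q2⟩)
          ((hD _ _).2 ⟨rfl, q3⟩) p1 p2 p3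
          (uI_P.2 ⟨a, c, ha, p, hp, ⟨q1, q2, q3⟩, rfl, rfl, rfl⟩)
      · have q1 : p.1 ≤ T := by omega
        have q2 : p.2 ≤ T := by omega
        exact h4 _ _ _ _ ((hD _ _).2 ⟨rfl, q1⟩) ((hD _ _).2 ⟨rfl, q2⟩) p1 p2
          (uI_N.2 ⟨a, c, ha, p, hp, ⟨q1, q2⟩, rfl, rfl⟩)
  · rintro ⟨ξ, h1, h2⟩
    constructor
    · intro i j x hi hj
      rw [hD] at hi hj
      omega
    · intro i x _ h
      exact uI_no (Or.inl rfl) _ h
    · intro i j x y _ _ h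
      exact absurd h (uI_no (Or.inr le_rfl) _)
    · intro i j x y _ _ h
      exact absurd h (uI_no (Or.inr (by omega)) _)
    · intro i x q _ h
      exact absurd h.2 (uI_no (Or.inr (by omega)) _)
    · intro i j x u k _ _ h
      exact absurd h.2 (uI_no (Or.inr (by omega)) _)
    · refine ⟨ξ, fun i x hx hX => ?_, fun n z hz hL hfl => ?_⟩
      · rw [hD] at hx
        rw [uI_X] at hX
        obtain ⟨hx1, hx2⟩ := hx
        obtain ⟨a', c', ha', j, hj, hjT, e1, e2⟩ := hX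
        obtain ⟨e3, e4⟩ := blk_inj hx2 hjT (hx1.symm.trans e2)
        subst e3
        subst e4
        rw [ha] at ha'
        obtain rfl := Option.some.inj ha'
        exact h1 _ hj hjT
      · rw [hD] at hz
        rw [uI_L] at hL
        obtain ⟨hz1, hz2⟩ := hz
        obtain ⟨a', c', ha', n', hn', ⟨hnT, hs⟩, e2⟩ := hL
        obtain ⟨e3, e4⟩ := blk_inj hz2 hnT (hz1.symm.trans e2)
        subst e3
        subst e4
        rw [ha] at ha'
        obtain rfl := Option.some.inj ha'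
        obtain ⟨h3, h4⟩ := h2 _ hn' hnT hs hfl
        refine ⟨fun i j k x y w hi hj hk li lj lk hP => ?_, fun i j x y hi hj li lj hN => ?_⟩
        · rw [hD] at hi hj hk
          rw [uI_P] at hP
          obtain ⟨i1, i2⟩ := hi
          obtain ⟨j1, j2⟩ := hj
          obtain ⟨k1, k2⟩ := hk
          obtain ⟨a', c', ha', p, hp, ⟨p1, p2, p3⟩, q1, q2, q3⟩ := hP
          obtain ⟨r1, r2⟩ := blk_inj i2 p1 (i1.symm.trans q1)
          subst r1
          obtain ⟨_, r3⟩ := blk_inj j2 p2 (j1.symm.trans q2)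
          obtain ⟨_, r4⟩ := blk_inj k2 p3 (k1.symm.trans q3)
          rw [ha] at ha'
          obtain rfl := Option.some.inj ha'
          subst r2
          subst r3
          subst r4
          exact h3 p hp li lj lk
        · rw [hD] at hi hj
          rw [uI_N] at hN
          obtain ⟨i1, i2⟩ := hi
          obtain ⟨j1, j2⟩ := hj
          obtain ⟨a', c', ha', p, hp, ⟨p1, p2⟩, q1, q2⟩ := hN
          obtain ⟨r1, r2⟩ := blk_inj i2 p1 (i1.symm.trans q1)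
          subst r1
          obtain ⟨_, r3⟩ := blk_inj j2 p2 (j1.symm.trans q2)
          rw [ha] at ha'
          obtain rfl := Option.some.inj ha'
          subst r2
          subst r3
          exact h4 p hp li lj

theorem t_UI : S_UI := by
  intro m hm T s l
  rw [csp_iff hm]
  constructor
  · rintro ⟨_, hg⟩ c hc
    obtain ⟨a, ha⟩ := List.mem_iff_getElem?.1 hc
    exact (uI_good ha).1 (hg _ (uI_F.2 ⟨a, c, ha, rfl⟩))
  · intro h
    refine ⟨isInst_uI m T s l, fun f hf => ?_⟩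
    obtain ⟨a, c, ha, rfl⟩ := uI_F.1 hf
    exact (uI_good ha).2 (h c (List.mem_of_getElem? ha))

end Pool.Agent.Y338.FB
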